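import Pool.Agent.Helper27.RV.St

set_option autoImplicit false

open Cardinal Ordinal Set

universe u

namespace Pool.Agent.Helper6.RV

open Pool.Agent.Helper27.RV Pool.Agent.Helper65.GS

theorem pCUT : StCUT.{u} := by
  intro K t N δ b hK ht hKt hcof h
  classical
  have ht0 : 0 < t := by
    rw [pos_iff_ne_zero]
    intro h0
    rw [h0] at hKt
    simp at hKt
  have hch : ∀ n : ℕ, ∃ s < t, n ∈ N → ¬ Cov K (b n).out (δ n) t.card s := by
    intro n
    by_cases hn : n ∈ N
    · obtain ⟨s, hs, h1⟩ := h n hn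
      exact ⟨s, hs, fun _ => h1⟩
    · exact ⟨0, ht0, fun h2 => absurd h2 hn⟩
  choose s hs hs2 using hch
  obtain ⟨t', ht', hst⟩ := exists_bd_nat hcof s hs
  have h1 : t'.card < t.card := by
    rw [← Cardinal.lt_ord]
    have h2 : t.card.ord = t := ht
    rw [h2]
    exact ht'
  have h2 : max t'.card #K < t.card := max_lt h1 hKt
  refine ⟨Order.succ (max t'.card #K), Order.succ_le_of_lt h2, ?_, ?_, ?_⟩
  · exact Cardinal.isRegular_succ (hK.trans (le_max_right _ _))
  · exact Order.lt_succ_of_le (le_max_right _ _)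
  · intro n hn
    refine ⟨s n, ?_, ?_⟩
    · refine (hst n).trans ?_
      rw [Cardinal.lt_ord]
      exact Order.lt_succ_of_le (le_max_left _ _)
    · intro hcov
      exact hs2 n hn (hcov.mono le_rfl (Order.succ_le_of_lt h2) le_rfl)

end Pool.Agent.Helper6.RV
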