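import Pool.Agent.Helper27.RV.St

set_option autoImplicit false

open Cardinal Ordinal Set

universe u

namespace Pool.Agent.Helper6.RV

open Pool.Agent.Helper27.RV

theorem pEMP : StEMP.{u} := by
  intro K m L J c B hJ hB
  refine ⟨PEmpty.{u + 1}, fun y => y.elim, univ, fun y => y.elim, ?_, fun y => y.elim, ?_, ?_,
    fun y => y.elim, ?_⟩
  · exact ⟨fun _ _ _ _ => mem_univ _, fun _ _ _ _ => mem_univ _⟩
  · intro l
    exact Set.to_countable _
  · intro X hX _
    exact hJ.sub X B hX hB
  · intro ι _ E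
    exact ⟨fun y => y.elim, fun y => y.elim, fun _ _ _ => mem_univ _⟩

end Pool.Agent.Helper6.RV
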