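import Pool.Agent.Helper27.RV.St

set_option autoImplicit false

open Cardinal Ordinal Set

universe u

namespace Pool.Agent.Helper6.RV

open Pool.Agent.Helper27.RV Pool.Agent.Helper65.GS

theorem pRST : StRST.{u} := by
  intro K m L J c X hJ hL
  refine ⟨⟨?_, ?_⟩, ?_⟩
  · intro B C hBC hC
    exact hJ.sub _ _ (Set.image_mono hBC) hC
  · intro Q F hQ hF
    show Subtype.val '' (⋃ q, F q) ∈ J
    rw [Set.image_iUnion]
    exact hJ.un Q (fun q => Subtype.val '' (F q)) hQ hF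
  · intro ι hι E
    classical
    obtain ⟨S, hS1, hS2⟩ := hL ι hι (fun i l k => if h : l ∈ X then E i ⟨l, h⟩ k else 0)
    refine ⟨fun y => S y, fun y _ n => hS1 y y.2 n, fun B _ hB => ?_⟩
    obtain ⟨I, hI, h1⟩ := hB
    apply hS2 (Subtype.val '' B)
    · rintro _ ⟨y, _, rfl⟩
      exact y.2
    · refine ⟨I, hI, ?_⟩
      rintro _ ⟨y, hy, rfl⟩ n
      obtain ⟨i, hi, k, hk⟩ := h1 y hy n
      refine ⟨i, hi, k, ?_⟩
      show S y n = (if h : (y : L) ∈ X then E i ⟨y, h⟩ k else 0)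
      rw [dif_pos y.2]
      exact hk

end Pool.Agent.Helper6.RV
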