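import Pool.Agent.Helper27.RV.St

set_option autoImplicit false

open Cardinal Ordinal Set

universe u

namespace Pool.Agent.Helper6.RV

open Pool.Agent.Helper27.RV Pool.Agent.Helper65.GS

theorem pTN (h1 : StCVA.{u}) (h2 : StCVB.{u}) (h3 : StCVC.{u}) (h4 : StCVD.{u}) : StTN.{u} := by
  intro K β δ m t0 hm hK hKm hδ ht0 hc
  let A : Set Ordinal.{u} := {t | ¬ Cov K β δ m t}
  have hA : A.Nonempty := ⟨t0, hc⟩
  let t := WellFounded.min (wellFounded_lt) A hA
  have htA : ¬ Cov K β δ m t := WellFounded.min_mem wellFounded_lt A hA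
  have hmin : ∀ s < t, Cov K β δ m s := by
    intro s hs
    by_contra hcon
    exact WellFounded.not_lt_min wellFounded_lt A hcon hs
  have ht : t ≤ t0 := by
    by_contra hcon
    push Not at hcon
    exact hc (hmin t0 hcon)
  have hm1 : 1 < m := by
    have : (1 : Cardinal.{u}) < ℵ₀ := one_lt_aleph0
    exact this.trans_le hm.aleph0_le
  have hδ1 : 1 ≤ δ := one_lt_aleph0.le.trans hδ
  have hKt : #K < t.card := by
    by_contra hcon
    push Not at hcon
    exact htA (h1 K β δ m t hm1 hδ1 hcon)
  have hcard : t.card.ord = t := by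
    apply le_antisymm (ord_card_le t)
    by_contra hcon
    push Not at hcon
    exact htA (h2 K β δ m t (hmin _ hcon))
  have htm : t < m.ord := ht.trans_lt ht0
  have hlim : Order.IsSuccLimit t := by
    rw [← hcard]
    exact isSuccLimit_ord (hK.trans hKt.le)
  refine ⟨t, ht, htA, hKt, hcard, ?_, ?_⟩
  · by_contra hcon
    push Not at hcon
    exact htA (h3 K β δ m t hm hδ htm hlim hcon hmin)
  · by_contra hcon
    push Not at hcon
    exact htA (h4 K β δ m t hm htm hcon hmin)

end Pool.Agent.Helper6.RV
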